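import Mathlib

/-!
# The quantum automorphism group of the complete hypergraph is classical
-/

open Equiv

namespace Pool.Agent.Results.MP_8cf907_al.ClassicalAut

/-- Hypergraphs: edges `E`, with source and range maps. -/
structure Hypergraph (V E : Type) where
  /-- The source map. -/
  s : E → Finset V
  /-- The range map. -/
  r : E → Finset V

/-- The complete hypergraph on `V`. -/
def complete (V : Type) : Hypergraph V (Finset V × Finset V) := ⟨Prod.fst, Prod.snd⟩

/-- Magic unitaries over a unital C*-algebra. -/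
structure IsMagic {X B : Type} [Fintype X] [CStarAlgebra B] (u : Matrix X X B) : Prop where
  proj : ∀ i j, IsStarProjection (u i j)
  row : ∀ i, ∑ j, u i j = 1
  col : ∀ j, ∑ i, u i j = 1

/-- The incidence matrix of a map `E → Finset V`, with entries in `B`. -/
def inc {V E : Type} [DecidableEq V] (B : Type) [CStarAlgebra B] (a : E → Finset V) :
    Matrix V E B :=
  fun v e => if v ∈ a e then 1 else 0

/-- The defining relations of `Aut⁺(Γ)` for matrices `u_V = u`, `u_E = w` over `B`. -/
structure IsAutPair {V E B : Type} [Fintype V] [DecidableEq V] [Fintype E] [CStarAlgebra B]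
    (Γ : Hypergraph V E) (u : Matrix V V B) (w : Matrix E E B) : Prop where
  magicV : IsMagic u
  magicE : IsMagic w
  source : inc B Γ.s * w = u * inc B Γ.s
  range : inc B Γ.r * w = u * inc B Γ.r

/-- `(A, u ⊕ w)` is the quantum automorphism group `Aut⁺(Γ)`: it is the universal unital
C*-algebra with matrices satisfying the defining relations. -/
structure IsAutPlus {V E : Type} [Fintype V] [DecidableEq V] [Fintype E] (Γ : Hypergraph V E)
    (A : Type) [CStarAlgebra A] (u : Matrix V V A) (w : Matrix E E A) : Prop where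
  pair : IsAutPair Γ u w
  universal : ∀ (B : Type) [CStarAlgebra B] (u' : Matrix V V B) (w' : Matrix E E B),
    IsAutPair Γ u' w' →
      ∃! φ : A →⋆ₐ[ℂ] B, (∀ i j, φ (u i j) = u' i j) ∧ ∀ e f, φ (w e f) = w' e f

/-- `(C, u)` is the quantum permutation group `S_V⁺`: the universal unital C*-algebra with a magic
unitary indexed by `V`. -/
structure IsSPlus (V : Type) [Fintype V] (C : Type) [CStarAlgebra C] (u : Matrix V V C) :
    Prop where
  magic : IsMagic u
  universal : ∀ (B : Type) [CStarAlgebra B] (u' : Matrix V V B), IsMagic u' →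
    ∃! φ : C →⋆ₐ[ℂ] B, ∀ i j, φ (u i j) = u' i j

/-- The fundamental representation of the classical group `S_V`, on `V`. -/
def uS (V : Type) [Fintype V] [DecidableEq V] : Matrix V V (Perm V → ℂ) :=
  fun i j σ => if σ j = i then 1 else 0

/-- The fundamental representation of the classical group `S_V`, on the edges. -/
def wS (V : Type) [Fintype V] [DecidableEq V] :
    Matrix (Finset V × Finset V) (Finset V × Finset V) (Perm V → ℂ) :=
  fun e f σ => if (f.1.map σ.toEmbedding, f.2.map σ.toEmbedding) = e then 1 else 0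

/-! ### Magic unitaries -/

section Magic

attribute [local instance] CStarAlgebra.spectralOrder CStarAlgebra.spectralOrderedRing

theorem proj_orth {ι B : Type} [Fintype ι] [CStarAlgebra B] {p : ι → B}
    (hp : ∀ i, IsStarProjection (p i)) (hs : ∑ i, p i = 1) {i j : ι} (hij : i ≠ j) :
    p i * p j = 0 := by
  classical
  have h1 : ∀ k, p j * p k * p j = star (p k * p j) * (p k * p j) := by
    intro k
    rw [star_mul, (hp j).isSelfAdjoint.star_eq, (hp k).isSelfAdjoint.star_eq]
    calc p j * p k * p j = p j * (p k * p k) * p j := by rw [(hp k).isIdempotentElem.eq]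
      _ = _ := by simp only [mul_assoc]
  have h2 : ∑ k, p j * p k * p j = p j := by
    rw [← Finset.sum_mul, ← Finset.mul_sum, hs, mul_one, (hp j).isIdempotentElem.eq]
  have h3 : ∑ k ∈ Finset.univ.erase j, p j * p k * p j = 0 := by
    have h4 := Finset.add_sum_erase Finset.univ (fun k => p j * p k * p j) (Finset.mem_univ j)
    rw [h2] at h4
    have h5 : p j * p j * p j = p j := by
      rw [(hp j).isIdempotentElem.eq, (hp j).isIdempotentElem.eq]
    simp only [h5] at h4
    exact left_eq_add.mp h4.symm
  have h6 := (Finset.sum_eq_zero_iff_of_nonneg (fun k _ => by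
    rw [h1 k]; exact star_mul_self_nonneg _)).mp h3 i (Finset.mem_erase.mpr ⟨hij, Finset.mem_univ i⟩)
  rw [h1 i] at h6
  exact CStarRing.star_mul_self_eq_zero_iff _ |>.mp h6

end Magic

section MagicOrth

variable {X B : Type} [Fintype X] [CStarAlgebra B] {u : Matrix X X B} (hu : IsMagic u)

include hu

theorem row_orth {i j k : X} (h : j ≠ k) : u i j * u i k = 0 :=
  proj_orth (fun j => hu.proj i j) (hu.row i) h

theorem col_orth {i j k : X} (h : j ≠ k) : u j i * u k i = 0 :=
  proj_orth (p := fun j => u j i) (fun j => hu.proj j i) (hu.col i) h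

theorem idem (i j : X) : u i j * u i j = u i j := (hu.proj i j).isIdempotentElem.eq

end MagicOrth

/-! ### Consequences of the relations -/

section Pair

variable {V B : Type} [Fintype V] [DecidableEq V] [CStarAlgebra B]
  {u : Matrix V V B} {w : Matrix (Finset V × Finset V) (Finset V × Finset V) B}

theorem source_eq (h : IsAutPair (complete V) u w) (v : V) (e : Finset V × Finset V) :
    ∑ x ∈ e.1, u v x = ∑ f, if v ∈ f.1 then w f e else 0 := by
  have h1 : ∑ f : Finset V × Finset V, (if v ∈ f.1 then (1 : B) else 0) * w f e =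
      ∑ x, u v x * (if x ∈ e.1 then (1 : B) else 0) := congrFun (congrFun h.source v) e
  simp only [ite_mul, one_mul, zero_mul, mul_ite, mul_one, mul_zero] at h1
  rw [h1, Finset.sum_ite_mem, Finset.univ_inter]

theorem range_eq (h : IsAutPair (complete V) u w) (v : V) (e : Finset V × Finset V) :
    ∑ x ∈ e.2, u v x = ∑ f, if v ∈ f.2 then w f e else 0 := by
  have h1 : ∑ f : Finset V × Finset V, (if v ∈ f.2 then (1 : B) else 0) * w f e =
      ∑ x, u v x * (if x ∈ e.2 then (1 : B) else 0) := congrFun (congrFun h.range v) e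
  simp only [ite_mul, one_mul, zero_mul, mul_ite, mul_one, mul_zero] at h1
  rw [h1, Finset.sum_ite_mem, Finset.univ_inter]

theorem w_comm (h : IsAutPair (complete V) u w) (f g e : Finset V × Finset V) :
    w f e * w g e = w g e * w f e := by
  by_cases hfg : f = g
  · rw [hfg]
  · rw [col_orth h.magicE hfg, col_orth h.magicE (Ne.symm hfg)]

/-- The entries of `u_V` commute. -/
theorem u_comm (h : IsAutPair (complete V) u w) (v x v' y : V) :
    u v x * u v' y = u v' y * u v x := by
  have h1 := source_eq h v ({x}, {y})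
  have h2 := range_eq h v' ({x}, {y})
  rw [Finset.sum_singleton] at h1 h2
  rw [h1, h2, Finset.sum_mul_sum, Finset.sum_mul_sum, Finset.sum_comm]
  refine Finset.sum_congr rfl fun f _ => Finset.sum_congr rfl fun g _ => ?_
  split_ifs
  · exact w_comm h _ _ _
  · rw [zero_mul, mul_zero]
  · rw [zero_mul, mul_zero]
  · rw [zero_mul]

theorem w_mul_source (h : IsAutPair (complete V) u w) (g e : Finset V × Finset V) (v : V) :
    w g e * ∑ x ∈ e.1, u v x = if v ∈ g.1 then w g e else 0 := by
  rw [source_eq h, Finset.mul_sum, Finset.sum_eq_single g]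
  · rw [mul_ite, mul_zero, idem h.magicE]
  · intro f _ hf
    rw [mul_ite, mul_zero, col_orth h.magicE (Ne.symm hf), ite_self]
  · intro hg
    exact absurd (Finset.mem_univ g) hg

theorem w_mul_range (h : IsAutPair (complete V) u w) (g e : Finset V × Finset V) (v : V) :
    w g e * ∑ x ∈ e.2, u v x = if v ∈ g.2 then w g e else 0 := by
  rw [range_eq h, Finset.mul_sum, Finset.sum_eq_single g]
  · rw [mul_ite, mul_zero, idem h.magicE]
  · intro f _ hf
    rw [mul_ite, mul_zero, col_orth h.magicE (Ne.symm hf), ite_self]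
  · intro hg
    exact absurd (Finset.mem_univ g) hg

end Pair

/-! ### The projections attached to permutations, in a commutative ring -/

section Comm

variable {V S : Type} [Fintype V] [DecidableEq V] [CommRing S] {u : V → V → S}

/-- The product attached to a permutation. -/
def P (u : V → V → S) (σ : Perm V) : S := ∏ v, u (σ v) v

theorem u_mul_P (h1 : ∀ i j, u i j * u i j = u i j)
    (h2 : ∀ i j k, j ≠ k → u j i * u k i = 0) (a b : V) (σ : Perm V) :
    u a b * P u σ = if σ b = a then P u σ else 0 := by
  unfold P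
  rw [← Finset.mul_prod_erase Finset.univ _ (Finset.mem_univ b), ← mul_assoc]
  split_ifs with h
  · rw [h, h1]
  · rw [h2 b a (σ b) (Ne.symm h), zero_mul]

theorem P_mul_P (h1 : ∀ i j, u i j * u i j = u i j)
    (h2 : ∀ i j k, j ≠ k → u j i * u k i = 0) (σ τ : Perm V) :
    P u σ * P u τ = if σ = τ then P u σ else 0 := by
  split_ifs with h
  · subst h
    unfold P
    rw [← Finset.prod_mul_distrib]
    exact Finset.prod_congr rfl fun v _ => h1 _ _
  · obtain ⟨v, hv⟩ : ∃ v, σ v ≠ τ v := by
      by_contra hcon
      push Not at hcon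
      exact h (Equiv.ext hcon)
    have h3 : P u σ = u (σ v) v * P u σ := by
      rw [u_mul_P h1 h2, if_pos rfl]
    rw [h3, mul_assoc, mul_comm (P u σ), ← mul_assoc, u_mul_P h1 h2, if_neg (Ne.symm hv), zero_mul]

theorem sum_P (h3 : ∀ i j k, j ≠ k → u i j * u i k = 0) (h4 : ∀ j, ∑ i, u i j = 1) :
    ∑ σ : Perm V, P u σ = 1 := by
  have e1 : ∏ v : V, ∑ i : V, u i v = 1 := by
    rw [Finset.prod_congr rfl fun v _ => h4 v, Finset.prod_const_one]
  rw [Finset.prod_univ_sum] at e1
  rw [← e1]
  have e2 : (Fintype.piFinset fun _ : V => (Finset.univ : Finset V)) = Finset.univ :=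
    Fintype.piFinset_univ
  rw [e2]
  symm
  have e3 : ∀ g : V → V, ¬ Function.Bijective g → ∏ v, u (g v) v = 0 := by
    intro g hg
    have hinj : ¬ Function.Injective g := fun h => hg (Finite.injective_iff_bijective.mp h)
    unfold Function.Injective at hinj
    push Not at hinj
    obtain ⟨x, y, hxy, hne⟩ := hinj
    rw [← Finset.mul_prod_erase Finset.univ _ (Finset.mem_univ x),
      ← Finset.mul_prod_erase (Finset.univ.erase x) _
        (Finset.mem_erase.mpr ⟨Ne.symm hne, Finset.mem_univ y⟩), ← mul_assoc, hxy, h3 _ _ _ hne,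
      zero_mul]
  rw [← Finset.sum_subset (Finset.subset_univ
    (Finset.univ.filter fun g : V → V => Function.Bijective g)) (fun g _ hg => e3 g (by
      intro hb; exact hg (Finset.mem_filter.mpr ⟨Finset.mem_univ g, hb⟩)))]
  refine (Finset.sum_bij (fun (σ : Perm V) _ => (σ : V → V)) ?_ ?_ ?_ ?_).symm
  · intro σ _
    exact Finset.mem_filter.mpr ⟨Finset.mem_univ _, σ.bijective⟩
  · intro σ _ τ _ h
    exact DFunLike.coe_injective h
  · intro g hg
    exact ⟨Equiv.ofBijective g (Finset.mem_filter.mp hg).2, Finset.mem_univ _, rfl⟩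
  · intro σ _
    rfl

end Comm

/-! ### The homomorphism from the functions on `S_V` -/

section Hom

variable {V B : Type} [Fintype V] [DecidableEq V] [CStarAlgebra B]

/-- The homomorphism attached to a family of projections indexed by permutations. -/
noncomputable def homOf (Q : Perm V → B) (h1 : ∀ σ τ, Q σ * Q τ = if σ = τ then Q σ else 0)
    (h2 : ∑ σ, Q σ = 1) (h3 : ∀ σ, star (Q σ) = Q σ) : (Perm V → ℂ) →⋆ₐ[ℂ] B where
  toFun f := ∑ σ, f σ • Q σ
  map_one' := by
    simp only [Pi.one_apply, one_smul]
    exact h2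
  map_mul' f g := by
    rw [Finset.sum_mul_sum]
    refine Finset.sum_congr rfl fun σ _ => ?_
    rw [Finset.sum_eq_single σ]
    · rw [smul_mul_smul_comm, h1, if_pos rfl, Pi.mul_apply]
    · intro τ _ hτ
      rw [smul_mul_smul_comm, h1, if_neg (Ne.symm hτ), smul_zero]
    · intro h
      exact absurd (Finset.mem_univ σ) h
  map_zero' := by simp
  map_add' f g := by
    simp only [Pi.add_apply, add_smul, Finset.sum_add_distrib]
  commutes' c := by
    simp only [Pi.algebraMap_apply, Algebra.algebraMap_self, RingHom.id_apply]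
    rw [← Finset.smul_sum, h2, Algebra.algebraMap_eq_smul_one]
  map_star' f := by
    rw [star_sum]
    refine Finset.sum_congr rfl fun σ _ => ?_
    rw [star_smul, h3, Pi.star_apply]

theorem homOf_apply (Q : Perm V → B) (h1 : ∀ σ τ, Q σ * Q τ = if σ = τ then Q σ else 0)
    (h2 : ∑ σ, Q σ = 1) (h3 : ∀ σ, star (Q σ) = Q σ) (f : Perm V → ℂ) :
    homOf Q h1 h2 h3 f = ∑ σ, f σ • Q σ := rfl

/-- For a solution of the relations there are projections `Q σ` such that everything is
determined. -/
theorem exists_Q {u : Matrix V V B} {w : Matrix (Finset V × Finset V) (Finset V × Finset V) B}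
    (h : IsAutPair (complete V) u w) :
    ∃ Q : Perm V → B, (∀ σ τ, Q σ * Q τ = if σ = τ then Q σ else 0) ∧ (∑ σ, Q σ = 1) ∧
      (∀ σ, star (Q σ) = Q σ) ∧ (∀ a b σ, u a b * Q σ = if σ b = a then Q σ else 0) := by
  have hcomm : ∀ a ∈ Set.range (fun p : V × V => u p.1 p.2),
      ∀ b ∈ Set.range (fun p : V × V => u p.1 p.2), a * b = b * a := by
    rintro _ ⟨p, rfl⟩ _ ⟨q, rfl⟩
    exact u_comm h _ _ _ _
  let S := Algebra.adjoin ℂ (Set.range (fun p : V × V => u p.1 p.2))
  have hSc : ∀ x y : S, x * y = y * x := by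
    have := Algebra.isMulCommutative_adjoin ℂ hcomm
    exact fun x y => this.is_comm.comm x y
  let iS : CommRing S := { (inferInstance : Ring S) with mul_comm := hSc }
  let uS' : V → V → S := fun a b => ⟨u a b, Algebra.subset_adjoin ⟨(a, b), rfl⟩⟩
  have hc : ∀ a b, ((uS' a b : S) : B) = u a b := fun a b => rfl
  have k1 : ∀ i j, uS' i j * uS' i j = uS' i j := fun i j => Subtype.ext (idem h.magicV i j)
  have k2 : ∀ i j k, j ≠ k → uS' j i * uS' k i = 0 := fun i j k hjk =>
    Subtype.ext (col_orth h.magicV hjk)
  have k3 : ∀ i j k, j ≠ k → uS' i j * uS' i k = 0 := fun i j k hjk =>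
    Subtype.ext (row_orth h.magicV hjk)
  have k4 : ∀ j, ∑ i, uS' i j = 1 := by
    intro j
    apply Subtype.ext
    have := h.magicV.col j
    have e : ((∑ i, uS' i j : S) : B) = ∑ i, u i j := map_sum S.val _ _
    rw [e, this]
    rfl
  refine ⟨fun σ => ((P uS' σ : S) : B), ?_, ?_, ?_, ?_⟩
  · intro σ τ
    have e : ((P uS' σ * P uS' τ : S) : B) = (P uS' σ : S) * (P uS' τ : S) := rfl
    rw [← e, P_mul_P k1 k2]
    split_ifs <;> rfl
  · have e : ((∑ σ, P uS' σ : S) : B) = ∑ σ, ((P uS' σ : S) : B) := map_sum S.val _ _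
    rw [← e, sum_P k3 k4]
    rfl
  · intro σ
    have key : ∀ x : S, (fun x : S => star (x : B) = (x : B)) x → ∀ y : S,
        (fun x : S => star (x : B) = (x : B)) y →
        (fun x : S => star (x : B) = (x : B)) (x * y) := by
      intro x hx y hy
      show star ((x * y : S) : B) = ((x * y : S) : B)
      have e1 : ((x * y : S) : B) = (x : B) * (y : B) := rfl
      have e2 : ((y * x : S) : B) = (y : B) * (x : B) := rfl
      rw [e1, star_mul, hx, hy, ← e2, mul_comm y x, e1]
    unfold P
    refine Finset.prod_induction _ (fun x : S => star (x : B) = (x : B)) (fun x y hx hy =>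
      key x hx y hy) (star_one B) ?_
    intro v _
    exact (h.magicV.proj _ _).isSelfAdjoint.star_eq
  · intro a b σ
    have e : ((uS' a b * P uS' σ : S) : B) = u a b * (P uS' σ : S) := rfl
    rw [← e, u_mul_P k1 k2]
    split_ifs <;> rfl

theorem sum_u_mul_Q {u : Matrix V V B} {Q : Perm V → B}
    (h4 : ∀ a b σ, u a b * Q σ = if σ b = a then Q σ else 0) (v : V) (X : Finset V)
    (σ : Perm V) :
    (∑ x ∈ X, u v x) * Q σ = if v ∈ X.map σ.toEmbedding then Q σ else 0 := by
  rw [Finset.sum_mul]
  simp only [h4]
  split_ifs with h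
  · rw [Finset.mem_map] at h
    obtain ⟨x, hx, hxv⟩ := h
    rw [Finset.sum_eq_single x]
    · exact if_pos hxv
    · intro y _ hy
      rw [if_neg]
      intro h'
      exact hy (σ.injective (h'.trans hxv.symm))
    · intro hx'
      exact absurd hx hx'
  · apply Finset.sum_eq_zero
    intro x hx
    rw [if_neg]
    intro h'
    exact h (Finset.mem_map.mpr ⟨x, hx, h'⟩)

theorem w_mul_Q {u : Matrix V V B} {w : Matrix (Finset V × Finset V) (Finset V × Finset V) B}
    (h : IsAutPair (complete V) u w) {Q : Perm V → B}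
    (h4 : ∀ a b σ, u a b * Q σ = if σ b = a then Q σ else 0) (g e : Finset V × Finset V)
    (σ : Perm V) :
    w g e * Q σ = if (e.1.map σ.toEmbedding, e.2.map σ.toEmbedding) = g then Q σ else 0 := by
  have key : ∀ g, (e.1.map σ.toEmbedding, e.2.map σ.toEmbedding) ≠ g → w g e * Q σ = 0 := by
    intro g hg
    have hne : g.1 ≠ e.1.map σ.toEmbedding ∨ g.2 ≠ e.2.map σ.toEmbedding := by
      by_contra hcon
      push Not at hcon
      exact hg (Prod.ext hcon.1.symm hcon.2.symm)
    rcases hne with hne | hne
    · obtain ⟨v, hv⟩ : ∃ v, ¬ (v ∈ g.1 ↔ v ∈ e.1.map σ.toEmbedding) := by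
        by_contra hcon
        push Not at hcon
        exact hne (Finset.ext hcon)
      have e1 : (w g e * ∑ x ∈ e.1, u v x) * Q σ =
          w g e * ((∑ x ∈ e.1, u v x) * Q σ) := mul_assoc _ _ _
      rw [w_mul_source h, sum_u_mul_Q h4] at e1
      by_cases hv1 : v ∈ g.1
      · have hv2 : v ∉ e.1.map σ.toEmbedding := fun h' => hv ⟨fun _ => h', fun _ => hv1⟩
        rw [if_pos hv1, if_neg hv2, mul_zero] at e1
        exact e1
      · have hv2 : v ∈ e.1.map σ.toEmbedding := by
          by_contra h'
          exact hv ⟨fun h'' => absurd h'' hv1, fun h'' => absurd h'' h'⟩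
        rw [if_neg hv1, if_pos hv2, zero_mul] at e1
        exact e1.symm
    · obtain ⟨v, hv⟩ : ∃ v, ¬ (v ∈ g.2 ↔ v ∈ e.2.map σ.toEmbedding) := by
        by_contra hcon
        push Not at hcon
        exact hne (Finset.ext hcon)
      have e1 : (w g e * ∑ x ∈ e.2, u v x) * Q σ =
          w g e * ((∑ x ∈ e.2, u v x) * Q σ) := mul_assoc _ _ _
      rw [w_mul_range h, sum_u_mul_Q h4] at e1
      by_cases hv1 : v ∈ g.2
      · have hv2 : v ∉ e.2.map σ.toEmbedding := fun h' => hv ⟨fun _ => h', fun _ => hv1⟩
        rw [if_pos hv1, if_neg hv2, mul_zero] at e1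
        exact e1
      · have hv2 : v ∈ e.2.map σ.toEmbedding := by
          by_contra h'
          exact hv ⟨fun h'' => absurd h'' hv1, fun h'' => absurd h'' h'⟩
        rw [if_neg hv1, if_pos hv2, zero_mul] at e1
        exact e1.symm
  split_ifs with hg
  · have e1 : (∑ f, w f e) * Q σ = Q σ := by rw [h.magicE.col e, one_mul]
    rw [Finset.sum_mul, Finset.sum_eq_single g] at e1
    · exact e1
    · intro f _ hf
      exact key f (fun h' => hf (h'.symm.trans hg))
    · intro h'
      exact absurd (Finset.mem_univ g) h'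
  · exact key g hg

end Hom

/-! ### The classical solution -/

section Classical

variable (V : Type) [Fintype V] [DecidableEq V]

theorem ite_proj (p : Perm V → Prop) [DecidablePred p] :
    IsStarProjection (fun σ : Perm V => if p σ then (1 : ℂ) else 0) := by
  constructor
  · funext σ
    show (if p σ then (1 : ℂ) else 0) * (if p σ then (1 : ℂ) else 0) = _
    split_ifs <;> simp
  · funext σ
    show star (if p σ then (1 : ℂ) else 0) = _
    split_ifs <;> simp

theorem isMagic_uS : IsMagic (uS V) where
  proj i j := ite_proj V fun σ => σ j = i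
  row i := by
    funext σ
    rw [Finset.sum_apply]
    show ∑ j, (if σ j = i then (1 : ℂ) else 0) = 1
    rw [Finset.sum_eq_single (σ.symm i)]
    · simp
    · intro j _ hj
      rw [if_neg]
      intro h
      exact hj (by rw [← h, symm_apply_apply])
    · intro h
      exact absurd (Finset.mem_univ _) h
  col j := by
    funext σ
    rw [Finset.sum_apply]
    show ∑ i, (if σ j = i then (1 : ℂ) else 0) = 1
    rw [Finset.sum_ite_eq]
    simp

/-- The action on edges. -/
def actE (σ : Perm V) (f : Finset V × Finset V) : Finset V × Finset V :=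
  (f.1.map σ.toEmbedding, f.2.map σ.toEmbedding)

theorem actE_symm (σ : Perm V) (f : Finset V × Finset V) : actE V σ (actE V σ.symm f) = f := by
  unfold actE
  apply Prod.ext
  · show (f.1.map σ.symm.toEmbedding).map σ.toEmbedding = f.1
    rw [Finset.map_map]
    have : σ.symm.toEmbedding.trans σ.toEmbedding = Function.Embedding.refl V := by
      ext x; simp
    rw [this, Finset.map_refl]
  · show (f.2.map σ.symm.toEmbedding).map σ.toEmbedding = f.2
    rw [Finset.map_map]
    have : σ.symm.toEmbedding.trans σ.toEmbedding = Function.Embedding.refl V := by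
      ext x; simp
    rw [this, Finset.map_refl]

theorem isMagic_wS : IsMagic (wS V) where
  proj e f := ite_proj V fun σ => (f.1.map σ.toEmbedding, f.2.map σ.toEmbedding) = e
  row e := by
    funext σ
    rw [Finset.sum_apply]
    show ∑ f, (if actE V σ f = e then (1 : ℂ) else 0) = 1
    rw [Finset.sum_eq_single (actE V σ.symm e)]
    · rw [if_pos (actE_symm V σ e)]
    · intro f _ hf
      rw [if_neg]
      intro h
      apply hf
      rw [← h]
      exact (actE_symm V σ.symm f).symm
    · intro h
      exact absurd (Finset.mem_univ _) h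
  col f := by
    funext σ
    rw [Finset.sum_apply]
    show ∑ e, (if actE V σ f = e then (1 : ℂ) else 0) = 1
    rw [Finset.sum_ite_eq]
    simp

theorem pairS : IsAutPair (complete V) (uS V) (wS V) where
  magicV := isMagic_uS V
  magicE := isMagic_wS V
  source := by
    funext v e σ
    have e0 : (∑ f : Finset V × Finset V, (if v ∈ f.1 then (1 : Perm V → ℂ) else 0) * wS V f e) σ =
      (∑ x, uS V v x * (if x ∈ e.1 then (1 : Perm V → ℂ) else 0)) σ := ?_
    · exact e0
    rw [Finset.sum_apply, Finset.sum_apply]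
    simp only [ite_mul, one_mul, zero_mul, mul_ite, mul_one, mul_zero]
    have e1 : ∀ f : Finset V × Finset V,
        (if v ∈ f.1 then wS V f e else (0 : Perm V → ℂ)) σ =
          if actE V σ e = f then (if v ∈ f.1 then 1 else 0) else 0 := by
      intro f
      split_ifs with h1 h2 h3
      · show (if actE V σ e = f then (1 : ℂ) else 0) = 1
        rw [if_pos h2]
      · show (if actE V σ e = f then (1 : ℂ) else 0) = 0
        rw [if_neg h2]
      · rfl
      · rfl
    have e2 : ∀ x : V, (if x ∈ e.1 then uS V v x else (0 : Perm V → ℂ)) σ =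
        if σ.symm v = x then (if x ∈ e.1 then 1 else 0) else 0 := by
      intro x
      have h0 : σ x = v ↔ σ.symm v = x := by rw [Equiv.symm_apply_eq]; exact eq_comm
      split_ifs with h1 h2 h3
      · show (if σ x = v then (1 : ℂ) else 0) = 1
        rw [if_pos (h0.mpr h2)]
      · show (if σ x = v then (1 : ℂ) else 0) = 0
        rw [if_neg (fun h => h2 (h0.mp h))]
      · rfl
      · rfl
    rw [Finset.sum_congr rfl fun f _ => e1 f, Finset.sum_congr rfl fun x _ => e2 x,
      Finset.sum_ite_eq, Finset.sum_ite_eq, if_pos (Finset.mem_univ _), if_pos (Finset.mem_univ _)]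
    congr 1
    apply propext
    show v ∈ e.1.map σ.toEmbedding ↔ σ.symm v ∈ e.1
    rw [Finset.mem_map_equiv]
  range := by
    funext v e σ
    have e0 : (∑ f : Finset V × Finset V, (if v ∈ f.2 then (1 : Perm V → ℂ) else 0) * wS V f e) σ =
      (∑ x, uS V v x * (if x ∈ e.2 then (1 : Perm V → ℂ) else 0)) σ := ?_
    · exact e0
    rw [Finset.sum_apply, Finset.sum_apply]
    simp only [ite_mul, one_mul, zero_mul, mul_ite, mul_one, mul_zero]
    have e1 : ∀ f : Finset V × Finset V,
        (if v ∈ f.2 then wS V f e else (0 : Perm V → ℂ)) σ =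
          if actE V σ e = f then (if v ∈ f.2 then 1 else 0) else 0 := by
      intro f
      split_ifs with h1 h2 h3
      · show (if actE V σ e = f then (1 : ℂ) else 0) = 1
        rw [if_pos h2]
      · show (if actE V σ e = f then (1 : ℂ) else 0) = 0
        rw [if_neg h2]
      · rfl
      · rfl
    have e2 : ∀ x : V, (if x ∈ e.2 then uS V v x else (0 : Perm V → ℂ)) σ =
        if σ.symm v = x then (if x ∈ e.2 then 1 else 0) else 0 := by
      intro x
      have h0 : σ x = v ↔ σ.symm v = x := by rw [Equiv.symm_apply_eq]; exact eq_comm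
      split_ifs with h1 h2 h3
      · show (if σ x = v then (1 : ℂ) else 0) = 1
        rw [if_pos (h0.mpr h2)]
      · show (if σ x = v then (1 : ℂ) else 0) = 0
        rw [if_neg (fun h => h2 (h0.mp h))]
      · rfl
      · rfl
    rw [Finset.sum_congr rfl fun f _ => e1 f, Finset.sum_congr rfl fun x _ => e2 x,
      Finset.sum_ite_eq, Finset.sum_ite_eq, if_pos (Finset.mem_univ _), if_pos (Finset.mem_univ _)]
    congr 1
    apply propext
    show v ∈ e.2.map σ.toEmbedding ↔ σ.symm v ∈ e.2
    rw [Finset.mem_map_equiv]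

/-- `Aut⁺` of the complete hypergraph is the classical group `S_V`. -/
theorem isAutPlus : IsAutPlus (complete V) (Perm V → ℂ) (uS V) (wS V) where
  pair := pairS V
  universal := by
    intro B _ u w h
    obtain ⟨Q, h1, h2, h3, h4⟩ := exists_Q h
    refine ⟨homOf Q h1 h2 h3, ⟨?_, ?_⟩, ?_⟩
    · intro a b
      rw [homOf_apply]
      have e1 : ∀ σ : Perm V, uS V a b σ • Q σ = u a b * Q σ := by
        intro σ
        rw [h4]
        show (if σ b = a then (1 : ℂ) else 0) • Q σ = _
        split_ifs
        · rw [one_smul]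
        · rw [zero_smul]
      rw [Finset.sum_congr rfl fun σ _ => e1 σ, ← Finset.mul_sum, h2, mul_one]
    · intro g e
      rw [homOf_apply]
      have e1 : ∀ σ : Perm V, wS V g e σ • Q σ = w g e * Q σ := by
        intro σ
        rw [w_mul_Q h h4]
        show (if (e.1.map σ.toEmbedding, e.2.map σ.toEmbedding) = g then (1 : ℂ) else 0) • Q σ = _
        split_ifs
        · rw [one_smul]
        · rw [zero_smul]
      rw [Finset.sum_congr rfl fun σ _ => e1 σ, ← Finset.mul_sum, h2, mul_one]
    · intro φ hφ
      set ψ := homOf Q h1 h2 h3 with hψ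
      have hψu : ∀ a b, ψ (uS V a b) = u a b := by
        intro a b
        rw [hψ, homOf_apply]
        have e1 : ∀ σ : Perm V, uS V a b σ • Q σ = u a b * Q σ := by
          intro σ
          rw [h4]
          show (if σ b = a then (1 : ℂ) else 0) • Q σ = _
          split_ifs
          · rw [one_smul]
          · rw [zero_smul]
        rw [Finset.sum_congr rfl fun σ _ => e1 σ, ← Finset.mul_sum, h2, mul_one]
      let Eq' := AlgHom.equalizer (φ : (Perm V → ℂ) →ₐ[ℂ] B) (ψ : (Perm V → ℂ) →ₐ[ℂ] B)
      have hu : ∀ a b, uS V a b ∈ Eq' := by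
        intro a b
        show φ (uS V a b) = ψ (uS V a b)
        rw [hψu, hφ.1]
      have hδ : ∀ σ : Perm V, (Pi.single σ (1 : ℂ) : Perm V → ℂ) ∈ Eq' := by
        intro σ
        have e : (Pi.single σ (1 : ℂ) : Perm V → ℂ) = ∏ v, uS V (σ v) v := by
          funext τ
          rw [Finset.prod_apply]
          show (Pi.single σ (1 : ℂ) : Perm V → ℂ) τ = ∏ v, if τ v = σ v then (1 : ℂ) else 0
          by_cases hτ : τ = σ
          · subst hτ
            rw [Pi.single_eq_same]
            simp
          · rw [Pi.single_eq_of_ne hτ]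
            obtain ⟨v, hv⟩ : ∃ v, τ v ≠ σ v := by
              by_contra hcon
              push Not at hcon
              exact hτ (Equiv.ext hcon)
            exact (Finset.prod_eq_zero (Finset.mem_univ v) (if_neg hv)).symm
        rw [e]
        exact Subalgebra.prod_mem _ fun v _ => hu _ _
      have hall : ∀ f : Perm V → ℂ, f ∈ Eq' := by
        intro f
        have e : f = ∑ σ, f σ • (Pi.single σ (1 : ℂ) : Perm V → ℂ) := by
          funext τ
          rw [Finset.sum_apply, Finset.sum_eq_single τ]
          · simp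
          · intro σ _ hσ
            rw [Pi.smul_apply, Pi.single_eq_of_ne (Ne.symm hσ), smul_zero]
          · intro h'
            exact absurd (Finset.mem_univ τ) h'
        rw [e]
        exact Subalgebra.sum_mem _ fun σ _ => Subalgebra.smul_mem _ (hδ σ) _
      exact StarAlgHom.ext fun f => hall f

end Classical

/-! ### A noncommutative magic unitary -/

section Noncomm

open scoped Matrix.Norms.L2Operator

/-- A projection. -/
noncomputable def p₀ : Matrix (Fin 2) (Fin 2) ℂ := !![1, 0; 0, 0]

/-- A projection. -/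
noncomputable def q₀ : Matrix (Fin 2) (Fin 2) ℂ := !![1 / 2, 1 / 2; 1 / 2, 1 / 2]

theorem p₀_proj : IsStarProjection p₀ := by
  constructor
  · show p₀ * p₀ = p₀
    unfold p₀
    ext i j
    fin_cases i <;> fin_cases j <;> simp [Matrix.mul_apply, Fin.sum_univ_two]
  · show star p₀ = p₀
    unfold p₀
    ext i j
    fin_cases i <;> fin_cases j <;> simp [Matrix.star_apply]

theorem q₀_proj : IsStarProjection q₀ := by
  constructor
  · show q₀ * q₀ = q₀
    unfold q₀
    ext i j
    fin_cases i <;> fin_cases j <;> simp [Matrix.mul_apply, Fin.sum_univ_two] <;> norm_num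
  · show star q₀ = q₀
    unfold q₀
    ext i j
    fin_cases i <;> fin_cases j <;> simp [Matrix.star_apply]

theorem pq_ne : p₀ * q₀ ≠ q₀ * p₀ := by
  intro h
  have h1 := congrFun (congrFun h 0) 1
  unfold p₀ q₀ at h1
  simp [Matrix.mul_apply, Fin.sum_univ_two] at h1

variable {V : Type} [Fintype V] [DecidableEq V]

/-- The projection-valued function. -/
noncomputable def gg (a b c d v : V) : Matrix (Fin 2) (Fin 2) ℂ :=
  if v = a ∨ v = b then p₀ else if v = c ∨ v = d then q₀ else 1

/-- The involution exchanging `a, b` and `c, d`. -/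
def tt (a b c d v : V) : V :=
  if v = a then b else if v = b then a else if v = c then d else if v = d then c else v

/-- The magic unitary. -/
noncomputable def uN (a b c d : V) : Matrix V V (Matrix (Fin 2) (Fin 2) ℂ) := fun v v' =>
  (if v = v' then gg a b c d v else 0) + (if v = tt a b c d v' then 1 - gg a b c d v else 0)

variable {a b c d : V}

theorem tt_tt (hab : a ≠ b) (hac : a ≠ c) (had : a ≠ d) (hbc : b ≠ c) (hbd : b ≠ d)
    (hcd : c ≠ d) (v : V) : tt a b c d (tt a b c d v) = v := by
  unfold tt
  split_ifs <;> simp_all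

theorem gg_tt (hab : a ≠ b) (hac : a ≠ c) (had : a ≠ d) (hbc : b ≠ c) (hbd : b ≠ d)
    (hcd : c ≠ d) (v : V) : gg a b c d (tt a b c d v) = gg a b c d v := by
  have hda : d ≠ a := Ne.symm had
  have hdb : d ≠ b := Ne.symm hbd
  have hca : c ≠ a := Ne.symm hac
  have hcb : c ≠ b := Ne.symm hbc
  unfold gg tt
  split_ifs <;> simp_all

theorem gg_fix (hab : a ≠ b) (hcd : c ≠ d) (v : V)
    (h : v = tt a b c d v) : gg a b c d v = 1 := by
  unfold gg
  unfold tt at h
  split_ifs at h ⊢ <;> simp_all

theorem gg_proj (a b c d v : V) : IsStarProjection (gg a b c d v) := by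
  unfold gg
  split_ifs
  · exact p₀_proj
  · exact q₀_proj
  · exact IsStarProjection.one _

theorem uN_magic (hab : a ≠ b) (hac : a ≠ c) (had : a ≠ d) (hbc : b ≠ c) (hbd : b ≠ d)
    (hcd : c ≠ d) : IsMagic (uN a b c d) := by
  have hcol : ∀ j, ∑ i, uN a b c d i j = 1 := by
    intro j
    unfold uN
    rw [Finset.sum_add_distrib, Finset.sum_ite_eq', Finset.sum_ite_eq', if_pos (Finset.mem_univ _),
      if_pos (Finset.mem_univ _), gg_tt hab hac had hbc hbd hcd]
    abel
  have hsymm : ∀ i j, uN a b c d i j = uN a b c d j i := by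
    intro i j
    unfold uN
    have e1 : (if i = j then gg a b c d i else 0) = (if j = i then gg a b c d j else 0) := by
      by_cases h : i = j
      · rw [h]
      · rw [if_neg h, if_neg (Ne.symm h)]
    have e2 : (if i = tt a b c d j then 1 - gg a b c d i else 0) =
        (if j = tt a b c d i then 1 - gg a b c d j else 0) := by
      by_cases h : i = tt a b c d j
      · have h' : j = tt a b c d i := by rw [h, tt_tt hab hac had hbc hbd hcd]
        rw [if_pos h, if_pos h']
        conv_lhs => rw [h, gg_tt hab hac had hbc hbd hcd]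
      · have h' : ¬ j = tt a b c d i := fun h'' => h (by rw [h'', tt_tt hab hac had hbc hbd hcd])
        rw [if_neg h, if_neg h']
    rw [e1, e2]
  refine ⟨?_, ?_, hcol⟩
  · intro i j
    unfold uN
    by_cases h1 : i = j
    · rw [if_pos h1]
      by_cases h2 : i = tt a b c d j
      · rw [if_pos h2]
        have h3 : gg a b c d i = 1 := gg_fix hab hcd i (by conv_lhs => rw [h2]; rw [← h1])
        rw [h3]
        simp
      · rw [if_neg h2, add_zero]
        exact gg_proj _ _ _ _ _
    · rw [if_neg h1, zero_add]
      by_cases h2 : i = tt a b c d j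
      · rw [if_pos h2]
        exact (gg_proj _ _ _ _ _).one_sub
      · rw [if_neg h2]
        exact IsStarProjection.zero _
  · intro i
    rw [Finset.sum_congr rfl fun j _ => hsymm i j]
    exact hcol i

theorem exists_noncomm (hV : 4 ≤ Fintype.card V) :
    ∃ u : Matrix V V (Matrix (Fin 2) (Fin 2) ℂ), IsMagic u ∧
      ∃ a c, u a a * u c c ≠ u c c * u a a := by
  obtain ⟨f⟩ : Nonempty (Fin 4 ↪ V) := by
    apply Function.Embedding.nonempty_of_card_le
    simpa using hV
  have hne : ∀ i j : Fin 4, i ≠ j → f i ≠ f j := fun i j h h' => h (f.injective h')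
  have hab := hne 0 1 (by decide)
  have hac := hne 0 2 (by decide)
  have had := hne 0 3 (by decide)
  have hbc := hne 1 2 (by decide)
  have hbd := hne 1 3 (by decide)
  have hcd := hne 2 3 (by decide)
  refine ⟨uN (f 0) (f 1) (f 2) (f 3), uN_magic hab hac had hbc hbd hcd, f 0, f 2, ?_⟩
  have e1 : uN (f 0) (f 1) (f 2) (f 3) (f 0) (f 0) = p₀ := by
    unfold uN gg tt
    rw [if_pos rfl, if_pos (Or.inl rfl), if_pos rfl, if_neg hab, add_zero]
  have e2 : uN (f 0) (f 1) (f 2) (f 3) (f 2) (f 2) = q₀ := by
    unfold uN gg tt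
    have h1 : ¬ (f 2 = f 0 ∨ f 2 = f 1) := by
      rintro (h | h)
      · exact hac h.symm
      · exact hbc h.symm
    rw [if_pos rfl, if_neg h1, if_pos (Or.inl rfl), if_neg (Ne.symm hac), if_neg (Ne.symm hbc),
      if_pos rfl, if_neg hcd, add_zero]
  rw [e1, e2]
  exact pq_ne

end Noncomm

open scoped Matrix.Norms.L2Operator in
/-- **Theorem.** For every finite set `V` the quantum automorphism group of the complete hypergraph
on `V` is the classical symmetric group `S_V`: the algebra of functions on `S_V`, with the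
permutation matrices on vertices and edges, is the universal C*-algebra defining `Aut⁺`. In
particular, `Aut⁺` is not `S_V⁺` if `|V| ≥ 4`: the canonical map from the universal C*-algebra of
`S_V⁺` is not injective, and there is a magic unitary over a C*-algebra indexed by `V` which is not
the vertex part of a solution of the defining relations. -/
theorem result (V : Type) [Fintype V] [DecidableEq V] :
    IsAutPlus (complete V) (Perm V → ℂ) (uS V) (wS V) ∧
    (4 ≤ Fintype.card V →
      (∀ (C : Type) [CStarAlgebra C] (u : Matrix V V C), IsSPlus V C u →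
        ∀ π : C →⋆ₐ[ℂ] (Perm V → ℂ), (∀ i j, π (u i j) = uS V i j) → ¬ Function.Injective π) ∧
      ∃ u : Matrix V V (Matrix (Fin 2) (Fin 2) ℂ), IsMagic u ∧
        ¬ ∃ w, IsAutPair (complete V) u w) := by
  refine ⟨isAutPlus V, fun hV => ⟨?_, ?_⟩⟩
  · intro C _ u hu π hπ hinj
    obtain ⟨u', hu', a, c, hac⟩ := exists_noncomm hV
    obtain ⟨ψ, hψ, _⟩ := hu.universal _ u' hu'
    apply hac
    have h1 : u a a * u c c = u c c * u a a := by
      apply hinj
      rw [map_mul, map_mul, mul_comm]
    rw [← hψ, ← hψ, ← map_mul, ← map_mul, h1]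
  · obtain ⟨u', hu', a, c, hac⟩ := exists_noncomm hV
    refine ⟨u', hu', ?_⟩
    rintro ⟨w, hw⟩
    exact hac (u_comm hw _ _ _ _)

end Pool.Agent.Results.MP_8cf907_al.ClassicalAut
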